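import Pool.Agent.Helper805.RA.Free
set_option autoImplicit false
set_option linter.unusedSectionVars false

/-! The extension `Φ[X] ⋉ (B ⊗ Φ[t_0, t_1, ...])` of a right alternative algebra `B` of characteristic 2. -/

namespace Pool.Agent.Helper805.RA
open scoped TensorProduct
open MvPolynomial (mkDerivation)

section der
variable (Φ : Type) [CommRing Φ]

/-- the polynomial ring in countably many variables -/
abbrev PolyC : Type := MvPolynomial ℕ Φ

variable {Φ}

/-- the derivation of `Φ[t_0, t_1, ...]` with `t_i ↦ q_{2i+3}` -/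
noncomputable def del (q : Polynomial Φ) : Derivation Φ (PolyC Φ) (PolyC Φ) :=
  mkDerivation Φ (fun i => MvPolynomial.C (q.coeff (2 * i + 3)))

lemma del_X (q : Polynomial Φ) (i : ℕ) : del q (MvPolynomial.X i) = MvPolynomial.C (q.coeff (2 * i + 3)) :=
  MvPolynomial.mkDerivation_X _ _ _

lemma del_C (q : Polynomial Φ) (r : Φ) : del q (MvPolynomial.C r) = 0 :=
  (del q).map_algebraMap r

lemma del_add (p q : Polynomial Φ) : del (p + q) = del p + del q := by
  apply MvPolynomial.derivation_ext
  intro i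
  rw [Derivation.add_apply, del_X, del_X, del_X, Polynomial.coeff_add, map_add]

lemma del_smul (r : Φ) (q : Polynomial Φ) : del (r • q) = r • del q := by
  apply MvPolynomial.derivation_ext
  intro i
  rw [Derivation.smul_apply, del_X, del_X, Polynomial.coeff_smul, smul_eq_mul, map_mul, MvPolynomial.smul_eq_C_mul]

/-- the square of the derivation is divisible by 2 -/
lemma del_del (q : Polynomial Φ) (c : PolyC Φ) : ∃ c' : PolyC Φ, del q (del q c) = c' + c' := by
  induction c using MvPolynomial.induction_on with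
  | C r => exact ⟨0, by rw [del_C, map_zero, add_zero]⟩
  | add a b ha hb =>
    obtain ⟨a', ha⟩ := ha
    obtain ⟨b', hb⟩ := hb
    exact ⟨a' + b', by rw [map_add, map_add, ha, hb]; abel⟩
  | mul_X a i ha =>
    obtain ⟨a', ha⟩ := ha
    refine ⟨a' * MvPolynomial.X i + del q a * MvPolynomial.C (q.coeff (2 * i + 3)), ?_⟩
    simp only [Derivation.leibniz, map_add, del_X, del_C, smul_eq_mul, ha]
    ring

/-- the odd coefficients of a square are even -/
lemma odd_coeff_sq (q : Polynomial Φ) (j : ℕ) : ∃ s : Φ, (q * q).coeff (2 * j + 3) = s + s := by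
  induction q using Polynomial.induction_on' with
  | add p q hp hq =>
    obtain ⟨a, ha⟩ := hp
    obtain ⟨b, hb⟩ := hq
    refine ⟨a + b + (p * q).coeff (2 * j + 3), ?_⟩
    have : (p + q) * (p + q) = p * p + q * q + (p * q + p * q) := by ring
    rw [this, Polynomial.coeff_add, Polynomial.coeff_add, Polynomial.coeff_add, ha, hb]
    abel
  | monomial n a =>
    refine ⟨0, ?_⟩
    rw [Polynomial.monomial_mul_monomial, Polynomial.coeff_monomial, if_neg (by omega), add_zero]

lemma del_sq (q : Polynomial Φ) : ∃ d : Derivation Φ (PolyC Φ) (PolyC Φ), del (q * q) = d + d := by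
  choose s hs using odd_coeff_sq q
  refine ⟨mkDerivation Φ (fun i => MvPolynomial.C (s i)), ?_⟩
  apply MvPolynomial.derivation_ext
  intro i
  rw [Derivation.add_apply, del_X, MvPolynomial.mkDerivation_X, hs, map_add]

end der

section tens
variable (Φ : Type) [CommRing Φ] (B : Type) [NonUnitalNonAssocRing B] [Module Φ B] [IsScalarTower Φ B B]
  [SMulCommClass Φ B B]

/-- scalar extension of `B` to the polynomial ring -/
abbrev Ten : Type := B ⊗[Φ] (PolyC Φ)

variable {Φ B}

/-- the action of the derivation on `B ⊗ Φ[t]` -/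
noncomputable def D (q : Polynomial Φ) : Ten Φ B →ₗ[Φ] Ten Φ B := LinearMap.lTensor B (del q : PolyC Φ →ₗ[Φ] PolyC Φ)

lemma D_tmul (q : Polynomial Φ) (b : B) (c : PolyC Φ) : D q (b ⊗ₜ[Φ] c) = b ⊗ₜ[Φ] (del q c) := rfl

lemma D_add (p q : Polynomial Φ) (m : Ten Φ B) : D (p + q) m = D p m + D q m := by
  induction m using TensorProduct.induction_on with
  | zero => simp
  | tmul b c => rw [D_tmul, D_tmul, D_tmul, del_add, Derivation.add_apply, TensorProduct.tmul_add]
  | add m n hm hn => rw [map_add, map_add, map_add, hm, hn]; abel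

lemma D_smul (r : Φ) (q : Polynomial Φ) (m : Ten Φ B) : D (r • q) m = r • D q m := by
  induction m using TensorProduct.induction_on with
  | zero => simp
  | tmul b c => rw [D_tmul, D_tmul, del_smul, Derivation.smul_apply, TensorProduct.tmul_smul]
  | add m n hm hn => rw [map_add, map_add, hm, hn, smul_add]

lemma D_zero (m : Ten Φ B) : D (0 : Polynomial Φ) m = 0 := by
  have := D_smul (0 : Φ) (0 : Polynomial Φ) m
  rwa [zero_smul, zero_smul] at this

lemma D_mul (q : Polynomial Φ) (m n : Ten Φ B) : D q (m * n) = D q m * n + m * D q n := by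
  induction m using TensorProduct.induction_on with
  | zero => simp
  | tmul b c =>
    induction n using TensorProduct.induction_on with
    | zero => simp
    | tmul b' c' =>
      rw [Algebra.TensorProduct.tmul_mul_tmul, D_tmul, D_tmul, D_tmul, Algebra.TensorProduct.tmul_mul_tmul,
        Algebra.TensorProduct.tmul_mul_tmul, Derivation.leibniz, smul_eq_mul, smul_eq_mul, TensorProduct.tmul_add,
        mul_comm c' (del q c), add_comm]
    | add n n' hn hn' => rw [mul_add, map_add, hn, hn', map_add, mul_add, mul_add]; abel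
  | add m m' hm hm' => rw [add_mul, map_add, hm, hm', map_add, add_mul, add_mul]; abel

lemma two_Ten (h2 : ∀ b : B, b + b = 0) (m : Ten Φ B) : m + m = 0 := by
  induction m using TensorProduct.induction_on with
  | zero => simp
  | tmul b c => rw [← TensorProduct.add_tmul, h2, TensorProduct.zero_tmul]
  | add m n hm hn => rw [add_add_add_comm, hm, hn, add_zero]

lemma D_D (h2 : ∀ b : B, b + b = 0) (q : Polynomial Φ) (m : Ten Φ B) : D q (D q m) = 0 := by
  induction m using TensorProduct.induction_on with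
  | zero => simp
  | tmul b c =>
    obtain ⟨c', hc⟩ := del_del q c
    rw [D_tmul, D_tmul, hc, TensorProduct.tmul_add, ← TensorProduct.add_tmul, h2, TensorProduct.zero_tmul]
  | add m n hm hn => rw [map_add, map_add, hm, hn, add_zero]

lemma D_sq (h2 : ∀ b : B, b + b = 0) (q : Polynomial Φ) (m : Ten Φ B) : D (q * q) m = 0 := by
  obtain ⟨d, hd⟩ := del_sq q
  induction m using TensorProduct.induction_on with
  | zero => simp
  | tmul b c =>
    rw [D_tmul, hd, Derivation.add_apply, TensorProduct.tmul_add, ← TensorProduct.add_tmul, h2,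
      TensorProduct.zero_tmul]
  | add m n hm hn => rw [map_add, hm, hn, add_zero]

lemma IsRA.lin {A : Type} [NonUnitalNonAssocRing A] (hA : IsRA A) (x y z : A) :
    (x * y) * z + (x * z) * y = x * (y * z) + x * (z * y) := by
  have h := hA (y + z) x
  have h1 := hA y x
  have h2 := hA z x
  simp only [mul_add, add_mul] at h
  rw [h1, h2] at h
  have h3 : (x * y) * z + (x * z) * y = (x * (y * y) + x * z * y + (x * y * z + x * (z * z))) - x * (y * y) -
      x * (z * z) := by abel
  rw [h3, h]
  abel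

lemma Ten_lin (hB : IsRA B) (m n n' : Ten Φ B) :
    (m * n) * n' + (m * n') * n = m * (n * n') + m * (n' * n) := by
  induction m using TensorProduct.induction_on with
  | zero => simp
  | tmul b c =>
    induction n using TensorProduct.induction_on with
    | zero => simp
    | tmul b1 c1 =>
      induction n' using TensorProduct.induction_on with
      | zero => simp
      | tmul b2 c2 =>
        simp only [Algebra.TensorProduct.tmul_mul_tmul]
        rw [show c * c2 * c1 = c * c1 * c2 by ring, show c * (c1 * c2) = c * c1 * c2 by ring,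
          show c * (c2 * c1) = c * c1 * c2 by ring, ← TensorProduct.add_tmul, ← TensorProduct.add_tmul, hB.lin]
      | add n n' hn hn' =>
        have e : (b ⊗ₜ[Φ] c * b1 ⊗ₜ[Φ] c1) * (n + n') + b ⊗ₜ[Φ] c * (n + n') * b1 ⊗ₜ[Φ] c1 =
          ((b ⊗ₜ[Φ] c * b1 ⊗ₜ[Φ] c1) * n + b ⊗ₜ[Φ] c * n * b1 ⊗ₜ[Φ] c1) +
          ((b ⊗ₜ[Φ] c * b1 ⊗ₜ[Φ] c1) * n' + b ⊗ₜ[Φ] c * n' * b1 ⊗ₜ[Φ] c1) := by
          simp only [mul_add, add_mul]; abel
        rw [e, hn, hn']
        simp only [mul_add, add_mul]; abel
    | add n n'' hn hn'' =>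
      have e : (b ⊗ₜ[Φ] c * (n + n'')) * n' + b ⊗ₜ[Φ] c * n' * (n + n'') =
          ((b ⊗ₜ[Φ] c * n) * n' + b ⊗ₜ[Φ] c * n' * n) + ((b ⊗ₜ[Φ] c * n'') * n' + b ⊗ₜ[Φ] c * n' * n'') := by
        simp only [mul_add, add_mul]; abel
      rw [e, hn, hn'']
      simp only [mul_add, add_mul]; abel
  | add m m' hm hm' =>
    have e : ((m + m') * n) * n' + (m + m') * n' * n =
        ((m * n) * n' + m * n' * n) + ((m' * n) * n' + m' * n' * n) := by
      simp only [add_mul]; abel
    rw [e, hm, hm']
    simp only [add_mul]; abel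

lemma Ten_RA (hB : IsRA B) : IsRA (Ten Φ B) := by
  intro n m
  induction n using TensorProduct.induction_on with
  | zero => simp
  | tmul b1 c1 =>
    induction m using TensorProduct.induction_on with
    | zero => simp
    | tmul b c =>
      simp only [Algebra.TensorProduct.tmul_mul_tmul]
      rw [hB, mul_assoc]
    | add m m' hm hm' => simp only [add_mul, hm, hm']
  | add n n' hn hn' =>
    have e : (m * (n + n')) * (n + n') = ((m * n) * n + (m * n') * n') + ((m * n) * n' + (m * n') * n) := by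
      simp only [mul_add, add_mul]; abel
    rw [e, hn, hn', Ten_lin hB]
    simp only [mul_add, add_mul]; abel

/-- the evaluation at `t = 0` -/
noncomputable def evLin : Ten Φ B →ₗ[Φ] B :=
  TensorProduct.lift (LinearMap.mk₂ Φ (fun (b : B) (c : PolyC Φ) => (MvPolynomial.constantCoeff c) • b)
    (fun b b' c => by rw [smul_add]) (fun r b c => by rw [smul_comm])
    (fun b c c' => by rw [map_add, add_smul])
    (fun r b c => by rw [MvPolynomial.smul_eq_C_mul, map_mul, MvPolynomial.constantCoeff_C, mul_smul]))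

lemma evLin_tmul (b : B) (c : PolyC Φ) : evLin (b ⊗ₜ[Φ] c) = (MvPolynomial.constantCoeff c) • b := rfl

lemma evLin_mul (m n : Ten Φ B) : evLin (m * n) = evLin m * evLin n := by
  induction m using TensorProduct.induction_on with
  | zero => simp
  | tmul b c =>
    induction n using TensorProduct.induction_on with
    | zero => simp
    | tmul b' c' =>
      rw [Algebra.TensorProduct.tmul_mul_tmul, evLin_tmul, evLin_tmul, evLin_tmul, map_mul, smul_mul_assoc,
        mul_smul_comm, smul_smul]
    | add n n' hn hn' => rw [mul_add, map_add, hn, hn', map_add, mul_add]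
  | add m m' hm hm' => rw [add_mul, map_add, hm, hm', map_add, add_mul]

/-- the evaluation at `t = 0`, as a homomorphism -/
noncomputable def ev : Ten Φ B →ₙₐ[Φ] B where
  toFun := evLin
  map_smul' := fun r m => map_smul evLin r m
  map_zero' := map_zero evLin
  map_add' := fun m n => map_add evLin m n
  map_mul' := evLin_mul

lemma ev_tmul (b : B) (c : PolyC Φ) : ev (b ⊗ₜ[Φ] c) = (MvPolynomial.constantCoeff c) • b := rfl

end tens

/-! ### the extension -/

/-- `Φ[X] ⊕ (B ⊗ Φ[t])`, on which the elements of `Φ[X]` act from the right by derivations, and from the left by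
zero -/
structure Ext (Φ : Type) [CommRing Φ] (B : Type) [NonUnitalNonAssocRing B] [Module Φ B] : Type where
  p : Polynomial Φ
  m : B ⊗[Φ] (PolyC Φ)

namespace Ext
section
variable {Φ : Type} [CommRing Φ] {B : Type} [NonUnitalNonAssocRing B] [Module Φ B] [IsScalarTower Φ B B]
  [SMulCommClass Φ B B]

@[ext] lemma ext' {a b : Ext Φ B} (h1 : a.p = b.p) (h2 : a.m = b.m) : a = b := by
  cases a; cases b; simp only at h1 h2; subst h1; subst h2; rfl

/-- the underlying module is a direct product -/
def equiv : Ext Φ B ≃ Polynomial Φ × (B ⊗[Φ] (PolyC Φ)) where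
  toFun a := (a.p, a.m)
  invFun a := ⟨a.1, a.2⟩
  left_inv _ := rfl
  right_inv _ := rfl

noncomputable instance : AddCommGroup (Ext Φ B) := equiv.addCommGroup
noncomputable instance : Module Φ (Ext Φ B) := equiv.module Φ

lemma add_p (a b : Ext Φ B) : (a + b).p = a.p + b.p := rfl
lemma add_m (a b : Ext Φ B) : (a + b).m = a.m + b.m := rfl
lemma sub_p (a b : Ext Φ B) : (a - b).p = a.p - b.p := rfl
lemma sub_m (a b : Ext Φ B) : (a - b).m = a.m - b.m := rfl
lemma zero_p : (0 : Ext Φ B).p = 0 := rfl
lemma zero_m : (0 : Ext Φ B).m = 0 := rfl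
lemma smul_p (r : Φ) (a : Ext Φ B) : (r • a).p = r • a.p := rfl
lemma smul_m (r : Φ) (a : Ext Φ B) : (r • a).m = r • a.m := rfl

/-- `(p + m)(q + n) = pq + (D_q m + mn)` -/
noncomputable instance : Mul (Ext Φ B) := ⟨fun a b => ⟨a.p * b.p, D b.p a.m + a.m * b.m⟩⟩

lemma mul_p (a b : Ext Φ B) : (a * b).p = a.p * b.p := rfl
lemma mul_m (a b : Ext Φ B) : (a * b).m = D b.p a.m + a.m * b.m := rfl

noncomputable instance : NonUnitalNonAssocRing (Ext Φ B) where
  left_distrib a b c := by
    ext1
    · simp only [mul_p, add_p, mul_add]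
    · simp only [mul_m, add_m, add_p, mul_add, D_add]; abel
  right_distrib a b c := by
    ext1
    · simp only [mul_p, add_p, add_mul]
    · simp only [mul_m, add_m, add_mul, map_add]; abel
  zero_mul a := by
    ext1
    · simp only [mul_p, zero_p, zero_mul]
    · simp only [mul_m, zero_m, zero_mul, map_zero, add_zero]
  mul_zero a := by
    ext1
    · simp only [mul_p, zero_p, mul_zero]
    · simp only [mul_m, zero_m, zero_p, mul_zero, D_zero, add_zero]

instance : IsScalarTower Φ (Ext Φ B) (Ext Φ B) := ⟨by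
  intro r a b
  rw [smul_eq_mul, smul_eq_mul]
  ext1
  · simp only [mul_p, smul_p, smul_mul_assoc]
  · simp only [mul_m, smul_m, smul_mul_assoc, map_smul, smul_add]⟩

instance : SMulCommClass Φ (Ext Φ B) (Ext Φ B) := ⟨by
  intro r a b
  rw [smul_eq_mul, smul_eq_mul]
  ext1
  · simp only [mul_p, smul_p, mul_smul_comm]
  · simp only [mul_m, smul_m, smul_p, mul_smul_comm, D_smul, smul_add]⟩

/-- the extension is right alternative -/
lemma isRA (hB : IsRA B) (h2 : ∀ b : B, b + b = 0) : IsRA (Ext Φ B) := by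
  intro b a
  ext1
  · simp only [mul_p, mul_assoc]
  · simp only [mul_m, mul_p, map_add, D_D h2, D_sq h2, D_mul, add_mul, mul_add, Ten_RA hB b.m a.m]
    have := two_Ten h2 (D b.p a.m * b.m)
    have e : 0 + (D b.p a.m * b.m + a.m * D b.p b.m) + (D b.p a.m * b.m + a.m * (b.m * b.m)) =
      0 + (a.m * D b.p b.m + a.m * (b.m * b.m)) + (D b.p a.m * b.m + D b.p a.m * b.m) := by abel
    rw [e, this, add_zero]

/-- the embedding of `B ⊗ Φ[t]` -/
noncomputable def inc : Ten Φ B →ₙₐ[Φ] Ext Φ B where
  toFun m := ⟨0, m⟩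
  map_smul' r m := by
    ext1
    · exact (smul_zero r).symm
    · rfl
  map_zero' := rfl
  map_add' m n := by
    ext1
    · exact (add_zero _).symm
    · rfl
  map_mul' m n := by
    ext1
    · exact (mul_zero _).symm
    · show m * n = D 0 m + m * n
      rw [D_zero, zero_add]

lemma inc_m (m : Ten Φ B) : (inc m : Ext Φ B).m = m := rfl

end
end Ext

/-! ### the one-generated subalgebra -/

section one
/-- `a, aa, a(aa), a(a(aa)), ...` -/
def lad {A : Type} [Mul A] (a : A) : ℕ → A
  | 0 => a
  | k + 1 => a * lad a k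

/-- the elements `a(a ℓ) - (aa)ℓ` where `ℓ = a(a(...(aa)))` has `2i + 2` factors -/
def zed {A : Type} [NonUnitalNonAssocRing A] (a : A) (i : ℕ) : A :=
  a * (a * lad a (2 * i + 1)) - (a * a) * lad a (2 * i + 1)

lemma map_lad {A B : Type} [NonUnitalNonAssocRing A] [NonUnitalNonAssocRing B] (g : A →ₙ+* B) (a : A) (k : ℕ) :
    g (lad a k) = lad (g a) k := by
  induction k with
  | zero => rfl
  | succ k ih => show g (a * lad a k) = g a * lad (g a) k; rw [map_mul, ih]

lemma map_zed {A B : Type} [NonUnitalNonAssocRing A] [NonUnitalNonAssocRing B] (g : A →ₙ+* B) (a : A) (i : ℕ) :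
    g (zed a i) = zed (g a) i := by
  unfold zed
  rw [map_sub, map_mul, map_mul, map_mul, map_mul, map_lad]

variable {Φ : Type} [CommRing Φ] {B : Type} [NonUnitalNonAssocRing B] [Module Φ B] [IsScalarTower Φ B B]
  [SMulCommClass Φ B B]

/-- `Σ_{i < n} v_i ⊗ t_i` -/
noncomputable def xe (n : ℕ) (v : ℕ → B) : Ten Φ B := ∑ i ∈ Finset.range n, v i ⊗ₜ[Φ] (MvPolynomial.X i)

lemma ev_xe (n : ℕ) (v : ℕ → B) : ev (xe n v : Ten Φ B) = 0 := by
  unfold xe
  rw [map_sum]
  apply Finset.sum_eq_zero
  intro i _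
  rw [ev_tmul, MvPolynomial.constantCoeff_X, zero_smul]

lemma D_xe (n : ℕ) (v : ℕ → B) (q : Polynomial Φ) :
    D q (xe n v : Ten Φ B) = ∑ i ∈ Finset.range n, v i ⊗ₜ[Φ] (MvPolynomial.C (q.coeff (2 * i + 3))) := by
  unfold xe
  rw [map_sum]
  apply Finset.sum_congr rfl
  intro i _
  rw [D_tmul, del_X]

lemma D_xe_zero (n : ℕ) (v : ℕ → B) (q : Polynomial Φ) (hq : ∀ i, q.coeff (2 * i + 3) = 0) :
    D q (xe n v : Ten Φ B) = 0 := by
  rw [D_xe]
  apply Finset.sum_eq_zero
  intro i _
  rw [hq, map_zero, TensorProduct.tmul_zero]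

lemma ev_D_xe (n : ℕ) (v : ℕ → B) (k : ℕ) :
    ev (D (Polynomial.X ^ (2 * k + 3)) (xe n v : Ten Φ B)) = if k < n then v k else 0 := by
  rw [D_xe, map_sum]
  have : ∀ i ∈ Finset.range n, ev (v i ⊗ₜ[Φ] (MvPolynomial.C ((Polynomial.X ^ (2 * k + 3) : Polynomial Φ).coeff
      (2 * i + 3)) : PolyC Φ)) = if k = i then v i else 0 := by
    intro i _
    rw [ev_tmul, MvPolynomial.constantCoeff_C, Polynomial.coeff_X_pow]
    by_cases h : k = i
    · subst h; simp
    · rw [if_neg (by omega), if_neg h, zero_smul]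
  rw [Finset.sum_congr rfl this, Finset.sum_ite_eq]
  simp only [Finset.mem_range]

/-- the generator -/
noncomputable def oo (n : ℕ) (v : ℕ → B) : Ext Φ B := ⟨Polynomial.X, xe n v⟩

lemma lad_p (n : ℕ) (v : ℕ → B) (k : ℕ) : (lad (oo n v : Ext Φ B) k).p = Polynomial.X ^ (k + 1) := by
  induction k with
  | zero => exact (pow_one _).symm
  | succ k ih =>
    show (oo n v * lad (oo n v : Ext Φ B) k).p = _
    rw [Ext.mul_p, ih]
    show Polynomial.X * Polynomial.X ^ (k + 1) = _
    rw [← pow_succ']

lemma coeff_X_three (i : ℕ) : (Polynomial.X : Polynomial Φ).coeff (2 * i + 3) = 0 := by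
  rw [Polynomial.coeff_X, if_neg (by omega)]

lemma coeff_even (k i : ℕ) : (Polynomial.X ^ (2 * k + 2) : Polynomial Φ).coeff (2 * i + 3) = 0 := by
  rw [Polynomial.coeff_X_pow, if_neg (by omega)]

/-- the values of `zed` at the generator -/
lemma zed_oo (n : ℕ) (v : ℕ → B) (i : ℕ) : ∃ ζ : Ten Φ B,
    zed (oo n v : Ext Φ B) i = Ext.inc ζ ∧ ev ζ = if i < n then v i else 0 := by
  set o : Ext Φ B := oo n v with ho
  have hop : o.p = Polynomial.X := rfl
  have hom : o.m = xe n v := rfl
  set l : Ext Φ B := lad o (2 * i + 1) with hl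
  have hlp : l.p = Polynomial.X ^ (2 * i + 2) := lad_p n v (2 * i + 1)
  refine ⟨(zed o i).m, ?_, ?_⟩
  · ext1
    · show (o * (o * l) - (o * o) * l).p = 0
      simp only [Ext.sub_p, Ext.mul_p, mul_assoc, sub_self]
    · rfl
  · show ev ((o * (o * l) - (o * o) * l).m) = _
    have e1 : (o * l).p = Polynomial.X ^ (2 * i + 3) := by
      rw [Ext.mul_p, hop, hlp, ← pow_succ']
    have e2 : (o * l).m = xe n v * l.m := by
      rw [Ext.mul_m, hom, hlp, D_xe_zero n v _ (coeff_even i), zero_add]
    have e3 : (o * o).m = xe n v * xe n v := by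
      rw [Ext.mul_m, hom, hop, D_xe_zero n v _ coeff_X_three, zero_add]
    have e4 : ((o * o) * l).m = D l.p (xe n v * xe n v) + (xe n v * xe n v) * l.m := by
      rw [Ext.mul_m, e3]
    have e5 : (o * (o * l)).m = D (Polynomial.X ^ (2 * i + 3)) (xe n v) + xe n v * (xe n v * l.m) := by
      rw [Ext.mul_m, hom, e1, e2]
    rw [Ext.sub_m, e4, e5, D_mul]
    simp only [map_sub, map_add, map_mul, ev_D_xe, ev_xe, zero_mul, mul_zero, add_zero, sub_zero]

/-- Every right alternative algebra of characteristic 2 satisfies all identities of the free right alternative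
algebra on one generator. -/
theorem inRA_one (hB : IsRA B) (h2 : ∀ b : B, b + b = 0) : InRA Φ 1 B := by
  intro f hf v
  obtain ⟨n, hn⟩ := finite_vars B f
  have hv := hn v (fun i => if i < n then v i else 0) (fun i hi => by rw [if_pos hi])
  rw [hv]
  choose ζ hζ using fun i => zed_oo (Φ := Φ) n v i
  let g : FreeRA Φ (Fin 1) →ₙₐ[Φ] Ext Φ B := FreeRA.lift (Ext.isRA hB h2) (fun _ => oo n v)
  have h1 := hf (fun i => zed (FreeRA.gen 0) i)
  have h3 := lift_natural g (fun i => zed (FreeRA.gen 0) i) f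
  rw [h1, map_zero] at h3
  have h4 : (fun i => g (zed (FreeRA.gen 0) i)) = fun i => Ext.inc (ζ i) := by
    funext i
    have e : g (zed (FreeRA.gen 0) i) = zed (g (FreeRA.gen 0)) i :=
      map_zed (g : FreeRA Φ (Fin 1) →ₙ+* Ext Φ B) _ i
    rw [e, show g (FreeRA.gen 0) = oo n v from FreeRA.lift_gen _ _ 0]
    exact (hζ i).1
  rw [h4, ← lift_natural Ext.inc ζ f] at h3
  have h5 : FreeNonUnitalNonAssocAlgebra.lift Φ ζ f = 0 := by
    have h6 : (Ext.inc (FreeNonUnitalNonAssocAlgebra.lift Φ ζ f) : Ext Φ B).m = (0 : Ext Φ B).m := by rw [← h3]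
    exact h6
  have h7 := lift_natural ev ζ f
  rw [h5, map_zero] at h7
  have h8 : (fun i => ev (ζ i)) = fun i => if i < n then v i else 0 := by
    funext i
    exact (hζ i).2
  rw [h8] at h7
  exact h7.symm

end one

end Pool.Agent.Helper805.RA
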