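import Mathlib
set_option autoImplicit false

/-! The free right alternative algebra over a commutative ring and the varieties generated by the finitely generated
ones. -/

namespace Pool.Agent.Helper805.RA

section
variable (Φ : Type) [CommRing Φ] (X : Type)

/-- the free nonassociative algebra -/
abbrev FN : Type := FreeNonUnitalNonAssocAlgebra Φ X

/-- The smallest two-sided ideal (a `Φ`-submodule absorbing left and right multiplications) of the free
nonassociative algebra that contains all elements `(ba)a - b(aa)`. -/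
noncomputable def raIdeal : Submodule Φ (FN Φ X) :=
  sInf {T | (∀ a t : FN Φ X, t ∈ T → a * t ∈ T ∧ t * a ∈ T) ∧ ∀ a b : FN Φ X, (b * a) * a - b * (a * a) ∈ T}

variable {Φ X}

lemma raIdeal_mul (a : FN Φ X) {t : FN Φ X} (ht : t ∈ raIdeal Φ X) :
    a * t ∈ raIdeal Φ X ∧ t * a ∈ raIdeal Φ X := by
  unfold raIdeal at *
  simp only [Submodule.mem_sInf] at *
  exact ⟨fun T hT => (hT.1 a t (ht T hT)).1, fun T hT => (hT.1 a t (ht T hT)).2⟩

lemma raIdeal_ra (a b : FN Φ X) : (b * a) * a - b * (a * a) ∈ raIdeal Φ X := by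
  unfold raIdeal
  simp only [Submodule.mem_sInf]
  exact fun T hT => hT.2 a b

end

/-- The free right alternative `Φ`-algebra on the set `X`. -/
def FreeRA (Φ : Type) [CommRing Φ] (X : Type) : Type := FN Φ X ⧸ raIdeal Φ X

namespace FreeRA
variable {Φ : Type} [CommRing Φ] {X : Type}

noncomputable instance : AddCommGroup (FreeRA Φ X) := inferInstanceAs (AddCommGroup (FN Φ X ⧸ raIdeal Φ X))
noncomputable instance : Module Φ (FreeRA Φ X) := inferInstanceAs (Module Φ (FN Φ X ⧸ raIdeal Φ X))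

/-- the class of an element of the free nonassociative algebra -/
noncomputable def mk : FN Φ X →ₗ[Φ] FreeRA Φ X := (raIdeal Φ X).mkQ

lemma mk_surj : Function.Surjective (mk : FN Φ X →ₗ[Φ] FreeRA Φ X) := Submodule.mkQ_surjective _

lemma mk_eq {a b : FN Φ X} : mk a = mk b ↔ a - b ∈ raIdeal Φ X := Submodule.Quotient.eq _

noncomputable instance : Mul (FreeRA Φ X) :=
  ⟨Quotient.map₂ (fun a b : FN Φ X => a * b) (by
    intro a a' ha b b' hb
    have h1 : a - a' ∈ raIdeal Φ X := (Submodule.quotientRel_def _).mp ha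
    have h2 : b - b' ∈ raIdeal Φ X := (Submodule.quotientRel_def _).mp hb
    refine (Submodule.quotientRel_def _).mpr ?_
    have h3 : a * b - a' * b' = (a - a') * b + a' * (b - b') := by rw [sub_mul, mul_sub]; abel
    rw [h3]
    exact Submodule.add_mem _ (raIdeal_mul b h1).2 (raIdeal_mul a' h2).1)⟩

lemma mk_mul (a b : FN Φ X) : mk (a * b) = mk a * mk b := rfl

noncomputable instance : NonUnitalNonAssocRing (FreeRA Φ X) where
  left_distrib := by
    intro a b c
    obtain ⟨a, rfl⟩ := mk_surj a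
    obtain ⟨b, rfl⟩ := mk_surj b
    obtain ⟨c, rfl⟩ := mk_surj c
    rw [← map_add, ← mk_mul, ← mk_mul, ← mk_mul, mul_add, map_add]
  right_distrib := by
    intro a b c
    obtain ⟨a, rfl⟩ := mk_surj a
    obtain ⟨b, rfl⟩ := mk_surj b
    obtain ⟨c, rfl⟩ := mk_surj c
    rw [← map_add, ← mk_mul, ← mk_mul, ← mk_mul, add_mul, map_add]
  zero_mul := by
    intro a
    obtain ⟨a, rfl⟩ := mk_surj a
    rw [← map_zero (mk : FN Φ X →ₗ[Φ] FreeRA Φ X), ← mk_mul, zero_mul]
  mul_zero := by
    intro a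
    obtain ⟨a, rfl⟩ := mk_surj a
    rw [← map_zero (mk : FN Φ X →ₗ[Φ] FreeRA Φ X), ← mk_mul, mul_zero]

instance : IsScalarTower Φ (FreeRA Φ X) (FreeRA Φ X) := ⟨by
  intro r a b
  obtain ⟨a, rfl⟩ := mk_surj a
  obtain ⟨b, rfl⟩ := mk_surj b
  rw [smul_eq_mul, smul_eq_mul, ← map_smul, ← mk_mul, ← mk_mul, ← map_smul, smul_mul_assoc]⟩

instance : SMulCommClass Φ (FreeRA Φ X) (FreeRA Φ X) := ⟨by
  intro r a b
  obtain ⟨a, rfl⟩ := mk_surj a
  obtain ⟨b, rfl⟩ := mk_surj b
  rw [smul_eq_mul, smul_eq_mul, ← map_smul, ← mk_mul, ← mk_mul, ← map_smul, mul_smul_comm]⟩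

/-- the generators -/
noncomputable def gen (x : X) : FreeRA Φ X := mk (FreeNonUnitalNonAssocAlgebra.of Φ x)

end FreeRA

/-- A ring (or algebra) is right alternative if `(yx)x = y(xx)` for all `x, y`. -/
def IsRA (A : Type) [NonUnitalNonAssocRing A] : Prop := ∀ x y : A, (y * x) * x = y * (x * x)

/-- the free right alternative algebra is right alternative -/
theorem isRA_FreeRA (Φ : Type) [CommRing Φ] (X : Type) : IsRA (FreeRA Φ X) := by
  intro a b
  obtain ⟨a, rfl⟩ := FreeRA.mk_surj a
  obtain ⟨b, rfl⟩ := FreeRA.mk_surj b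
  rw [← FreeRA.mk_mul, ← FreeRA.mk_mul, ← FreeRA.mk_mul, ← FreeRA.mk_mul, FreeRA.mk_eq]
  exact raIdeal_ra a b

namespace FreeRA
variable {Φ : Type} [CommRing Φ] {X : Type}

section lift
variable {B : Type} [NonUnitalNonAssocRing B] [Module Φ B] [IsScalarTower Φ B B] [SMulCommClass Φ B B]

lemma lift_aux (hB : IsRA B) (f : X → B) :
    raIdeal Φ X ≤ LinearMap.ker ((FreeNonUnitalNonAssocAlgebra.lift Φ f : FN Φ X →ₙₐ[Φ] B) : FN Φ X →ₗ[Φ] B) := by
  apply sInf_le
  refine ⟨fun a t ht => ?_, fun a b => ?_⟩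
  · have ht' : (FreeNonUnitalNonAssocAlgebra.lift Φ f) t = 0 := ht
    constructor
    · show (FreeNonUnitalNonAssocAlgebra.lift Φ f) (a * t) = 0
      rw [map_mul, ht', mul_zero]
    · show (FreeNonUnitalNonAssocAlgebra.lift Φ f) (t * a) = 0
      rw [map_mul, ht', zero_mul]
  · show (FreeNonUnitalNonAssocAlgebra.lift Φ f) _ = 0
    rw [map_sub, map_mul, map_mul, map_mul, map_mul, hB, sub_self]

/-- the universal property: a map from `X` to a right alternative algebra extends to a homomorphism -/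
noncomputable def lift (hB : IsRA B) (f : X → B) : FreeRA Φ X →ₙₐ[Φ] B where
  toFun := (raIdeal Φ X).liftQ _ (lift_aux hB f)
  map_smul' := fun r a => map_smul _ r a
  map_zero' := map_zero _
  map_add' := fun a b => map_add _ a b
  map_mul' := by
    intro a b
    obtain ⟨a, rfl⟩ := mk_surj a
    obtain ⟨b, rfl⟩ := mk_surj b
    exact map_mul (FreeNonUnitalNonAssocAlgebra.lift Φ f) a b

lemma lift_gen (hB : IsRA B) (f : X → B) (x : X) : lift (Φ := Φ) hB f (gen x) = f x :=
  FreeNonUnitalNonAssocAlgebra.lift_of_apply Φ f x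

/-- uniqueness in the universal property -/
theorem hom_ext (g h : FreeRA Φ X →ₙₐ[Φ] B) (hgh : ∀ x, g (gen x) = h (gen x)) : g = h := by
  let m : FN Φ X →ₙₐ[Φ] FreeRA Φ X :=
    { toFun := fun a => mk a
      map_smul' := fun r a => map_smul mk r a
      map_zero' := map_zero mk
      map_add' := fun a b => map_add mk a b
      map_mul' := fun a b => mk_mul a b }
  have h1 : g.comp m = h.comp m := by
    apply FreeNonUnitalNonAssocAlgebra.hom_ext
    intro x
    exact hgh x
  ext a
  obtain ⟨a, rfl⟩ := mk_surj a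
  exact DFunLike.congr_fun h1 a

end lift
end FreeRA

section defs
variable (Φ : Type) [CommRing Φ]

/-- The nonassociative polynomial `p` (an element of the free nonassociative `Φ`-algebra on the variables
`x_0, x_1, ...`) is an identity of the `Φ`-algebra `A`: it vanishes under every substitution of elements of `A` for
the variables. -/
def IsIdentity (p : FreeNonUnitalNonAssocAlgebra Φ ℕ) (A : Type) [NonUnitalNonAssocRing A] [Module Φ A]
    [IsScalarTower Φ A A] [SMulCommClass Φ A A] : Prop :=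
  ∀ v : ℕ → A, FreeNonUnitalNonAssocAlgebra.lift Φ v p = 0

/-- The `Φ`-algebra `A` belongs to the variety generated by the free right alternative `Φ`-algebra on `n` free
generators: it satisfies every identity of that algebra. -/
def InRA (n : ℕ) (A : Type) [NonUnitalNonAssocRing A] [Module Φ A] [IsScalarTower Φ A A] [SMulCommClass Φ A A] :
    Prop :=
  ∀ p : FreeNonUnitalNonAssocAlgebra Φ ℕ, IsIdentity Φ p (FreeRA Φ (Fin n)) → IsIdentity Φ p A

end defs

section
variable {Φ : Type} [CommRing Φ]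

lemma lift_natural {A B : Type} [NonUnitalNonAssocRing A] [Module Φ A]
    [IsScalarTower Φ A A] [SMulCommClass Φ A A] [NonUnitalNonAssocRing B] [Module Φ B]
    [IsScalarTower Φ B B] [SMulCommClass Φ B B] (g : A →ₙₐ[Φ] B) (v : ℕ → A)
    (p : FreeNonUnitalNonAssocAlgebra Φ ℕ) :
    g (FreeNonUnitalNonAssocAlgebra.lift Φ v p) = FreeNonUnitalNonAssocAlgebra.lift Φ (fun i => g (v i)) p := by
  have h : g.comp (FreeNonUnitalNonAssocAlgebra.lift Φ v) = FreeNonUnitalNonAssocAlgebra.lift Φ (fun i => g (v i)) := by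
    apply FreeNonUnitalNonAssocAlgebra.hom_ext
    intro i
    simp
  exact DFunLike.congr_fun h p

/-- every identity of the free right alternative algebra on `m` generators is an identity of the one on `n ≤ m`
generators -/
lemma identity_down {n m : ℕ} (hnm : n ≤ m) (p : FreeNonUnitalNonAssocAlgebra Φ ℕ)
    (h : IsIdentity Φ p (FreeRA Φ (Fin m))) : IsIdentity Φ p (FreeRA Φ (Fin n)) := by
  intro v
  let ι : FreeRA Φ (Fin n) →ₙₐ[Φ] FreeRA Φ (Fin m) :=
    FreeRA.lift (isRA_FreeRA Φ _) (fun i => FreeRA.gen (Fin.castLE hnm i))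
  let π : FreeRA Φ (Fin m) →ₙₐ[Φ] FreeRA Φ (Fin n) :=
    FreeRA.lift (isRA_FreeRA Φ _) (fun i => if hi : i.val < n then FreeRA.gen ⟨i.val, hi⟩ else 0)
  have hπι : π.comp ι = NonUnitalAlgHom.id Φ (FreeRA Φ (Fin n)) := by
    apply FreeRA.hom_ext
    intro i
    show π (ι (FreeRA.gen i)) = FreeRA.gen i
    rw [show ι (FreeRA.gen i) = FreeRA.gen (Fin.castLE hnm i) from FreeRA.lift_gen _ _ i]
    rw [show π (FreeRA.gen (Fin.castLE hnm i)) = _ from FreeRA.lift_gen _ _ (Fin.castLE hnm i)]
    simp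
  have h1 := lift_natural π (fun i => ι (v i)) p
  rw [h (fun i => ι (v i)), map_zero] at h1
  have h2 : (fun i => π (ι (v i))) = v := by
    funext i
    exact DFunLike.congr_fun hπι (v i)
  rw [h2] at h1
  exact h1.symm

lemma InRA_mono {n m : ℕ} (hnm : n ≤ m) (A : Type) [NonUnitalNonAssocRing A] [Module Φ A] [IsScalarTower Φ A A]
    [SMulCommClass Φ A A] (h : InRA Φ n A) : InRA Φ m A :=
  fun p hp => h p (identity_down hnm p hp)

/-- members of the varieties are right alternative -/
lemma isRA_of_InRA {n : ℕ} (A : Type) [NonUnitalNonAssocRing A] [Module Φ A] [IsScalarTower Φ A A]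
    [SMulCommClass Φ A A] (h : InRA Φ n A) : IsRA A := by
  intro x y
  let X : ℕ → FreeNonUnitalNonAssocAlgebra Φ ℕ := FreeNonUnitalNonAssocAlgebra.of Φ
  have h1 := h ((X 1 * X 0) * X 0 - X 1 * (X 0 * X 0)) (by
    intro v
    have e : ∀ k, FreeNonUnitalNonAssocAlgebra.lift Φ v (X k) = v k := fun k =>
      FreeNonUnitalNonAssocAlgebra.lift_of_apply Φ v k
    rw [map_sub, map_mul, map_mul, map_mul, map_mul, e, e, isRA_FreeRA, sub_self])
    (fun k => if k = 0 then x else y)
  have e : ∀ k, FreeNonUnitalNonAssocAlgebra.lift Φ (fun k => if k = 0 then x else y) (X k) =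
      if k = 0 then x else y := fun k => FreeNonUnitalNonAssocAlgebra.lift_of_apply Φ _ k
  rw [map_sub, map_mul, map_mul, map_mul, map_mul, e, e] at h1
  simp only [one_ne_zero, if_false, if_true] at h1
  exact sub_eq_zero.mp h1

/-- a subalgebra of the free nonassociative algebra that contains the variables is everything -/
lemma FN_mem {X : Type} (S : NonUnitalSubalgebra Φ (FN Φ X)) (h : ∀ x, FreeNonUnitalNonAssocAlgebra.of Φ x ∈ S)
    (f : FN Φ X) : f ∈ S := by
  let g : FN Φ X →ₙₐ[Φ] S := FreeNonUnitalNonAssocAlgebra.lift Φ (fun x => ⟨_, h x⟩)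
  have h1 : (NonUnitalSubalgebraClass.subtype S).comp g = NonUnitalAlgHom.id Φ (FN Φ X) := by
    apply FreeNonUnitalNonAssocAlgebra.hom_ext
    intro x
    show ((g (FreeNonUnitalNonAssocAlgebra.of Φ x) : S) : FN Φ X) = _
    rw [show g (FreeNonUnitalNonAssocAlgebra.of Φ x) = ⟨_, h x⟩ from FreeNonUnitalNonAssocAlgebra.lift_of_apply Φ _ x]
    rfl
  have h2 : ((g f : S) : FN Φ X) = f := DFunLike.congr_fun h1 f
  rw [← h2]
  exact (g f).2

/-- a nonassociative polynomial involves finitely many variables only -/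
lemma finite_vars (B : Type) [NonUnitalNonAssocRing B] [Module Φ B] [IsScalarTower Φ B B] [SMulCommClass Φ B B]
    (f : FN Φ ℕ) : ∃ n : ℕ, ∀ v w : ℕ → B, (∀ i, i < n → v i = w i) →
      FreeNonUnitalNonAssocAlgebra.lift Φ v f = FreeNonUnitalNonAssocAlgebra.lift Φ w f := by
  let S : NonUnitalSubalgebra Φ (FN Φ ℕ) :=
    { carrier := {f | ∃ n : ℕ, ∀ v w : ℕ → B, (∀ i, i < n → v i = w i) →
        FreeNonUnitalNonAssocAlgebra.lift Φ v f = FreeNonUnitalNonAssocAlgebra.lift Φ w f}
      add_mem' := by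
        rintro a b ⟨n, hn⟩ ⟨m, hm⟩
        refine ⟨max n m, fun v w h => ?_⟩
        rw [map_add, map_add, hn v w (fun i hi => h i (lt_max_of_lt_left hi)),
          hm v w (fun i hi => h i (lt_max_of_lt_right hi))]
      mul_mem' := by
        rintro a b ⟨n, hn⟩ ⟨m, hm⟩
        refine ⟨max n m, fun v w h => ?_⟩
        rw [map_mul, map_mul, hn v w (fun i hi => h i (lt_max_of_lt_left hi)),
          hm v w (fun i hi => h i (lt_max_of_lt_right hi))]
      zero_mem' := ⟨0, fun v w _ => by rw [map_zero, map_zero]⟩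
      smul_mem' := by
        rintro r a ⟨n, hn⟩
        refine ⟨n, fun v w h => ?_⟩
        rw [map_smul, map_smul, hn v w h] }
  have h := FN_mem S (fun k => ⟨k + 1, fun v w hv => by
    rw [FreeNonUnitalNonAssocAlgebra.lift_of_apply, FreeNonUnitalNonAssocAlgebra.lift_of_apply]
    exact hv k (Nat.lt_succ_self k)⟩) f
  exact h

end

end Pool.Agent.Helper805.RA
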